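import Pool.Agent.helper69.DH.SpecR

/-!
# Project d2: (MP_5823cb_al), part R: rDNS: one step of the density estimate (helper19)
-/

set_option autoImplicit false

open Filter Topology MeasureTheory
open scoped commutatorElement

namespace Pool.Agent.helper90.DH

open Pool.Agent.helper64.D2

/-- the hot cells of the updated family. -/
theorem rDNS_H {P : RQ} {S : ℕ} (hR : RHY P S) (hREF : rREF_stmt) {s : ℕ} {H K : ℕ → Finset ℤ} (hs1 : P.S1 ≤ s) (hs : s ≤ S)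
    (hV : RIV P H K s) {h : Finset ℤ} (hh : ∀ m ∈ h, m ∈ rTg s ∧ (m ∈ P.T s ∨ rT2 H 0 s m ∨ rT3 P H K 0 s m)) {m : ℤ}
    (hm : m ∈ rRZ (Function.update H s h) s) : m ∈ rRZ P.T s ∨ rT2 H 1 s m ∨ rT3 P H K 1 s m := by
  have hs0 : P.s0 ≤ P.S1 := hR.1.2.2.2.2.1
  unfold rRZ at hm
  obtain ⟨hmT, t, hts, hmt⟩ := Finset.mem_filter.1 hm
  have key : P.S1 ≤ t → (m / 2 ^ (s - t) ∈ P.T t ∨ rT2 H 0 t (m / 2 ^ (s - t)) ∨ rT3 P H K 0 t (m / 2 ^ (s - t))) →
      m ∈ rRZ P.T s ∨ rT2 H 1 s m ∨ rT3 P H K 1 s m := by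
    intro ht1 hc
    obtain ⟨r2, r3, -⟩ := hREF P S hR s t H K m (hs0.trans ht1) hts hs
    rcases hc with hc | hc | hc
    · left
      unfold rRZ
      exact Finset.mem_filter.2 ⟨hmT, t, hts, hc⟩
    · exact Or.inr (Or.inl (r2 hc))
    · exact Or.inr (Or.inr (r3 hc))
  rcases hts.eq_or_lt with e | hlt
  · subst e
    rw [Function.update_self] at hmt
    have e1 : m / 2 ^ (t - t) = m := by rw [Nat.sub_self, pow_zero, Int.ediv_one]
    refine key hs1 ?_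
    rw [e1] at hmt ⊢
    exact (hh m hmt).2
  · rw [Function.update_of_ne hlt.ne] at hmt
    have ht1 : P.S1 ≤ t := by
      by_contra hcon
      rw [hV.1.1 t (not_le.1 hcon)] at hmt
      exact absurd hmt (Finset.notMem_empty _)
    exact key ht1 (hV.2.2.1 t hts _ hmt)

/-- the critical cells of the updated family. -/
theorem rDNS_K {P : RQ} {S : ℕ} (hR : RHY P S) (hBAS : rBAS_stmt) (hREF : rREF_stmt) {s : ℕ} {H K : ℕ → Finset ℤ} (hs1 : P.S1 ≤ s) (hs : s ≤ S)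
    (hV : RIV P H K s) {k : Finset ℤ} (hk : ∀ n ∈ k, n ∈ rSg s ∧ rCR P H K 0 s n) {m : ℤ}
    (hm : m ∈ rRZ (Function.update K s k) s) : m ∈ rSg s ∧ rCR P H K 1 s m := by
  have hs0 : P.s0 ≤ P.S1 := hR.1.2.2.2.2.1
  have h216 : 216 ≤ P.s0 := hR.1.2.2.2.1
  unfold rRZ at hm
  obtain ⟨hmT, t, hts, hmt⟩ := Finset.mem_filter.1 hm
  have key : P.S1 ≤ t → (m / 2 ^ (s - t) ∈ rSg t ∧ rCR P H K 0 t (m / 2 ^ (s - t))) → m ∈ rSg s ∧ rCR P H K 1 s m := by
    intro ht1 hc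
    obtain ⟨-, -, r3⟩ := hREF P S hR s t H K m (hs0.trans ht1) hts hs
    refine ⟨?_, r3 hc.2⟩
    have h5 : 5 ≤ t := by omega
    exact ((hBAS.2.2.2.2.2.2.1 s t m hts).2 h5).1 hc.1
  rcases hts.eq_or_lt with e | hlt
  · subst e
    rw [Function.update_self] at hmt
    have e1 : m / 2 ^ (t - t) = m := by rw [Nat.sub_self, pow_zero, Int.ediv_one]
    refine key hs1 ?_
    rw [e1] at hmt ⊢
    exact hk m hmt
  · rw [Function.update_of_ne hlt.ne] at hmt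
    have ht1 : P.S1 ≤ t := by
      by_contra hcon
      rw [hV.2.1.1 t (not_le.1 hcon)] at hmt
      exact absurd hmt (Finset.notMem_empty _)
    exact key ht1 (hV.2.2.2.1 t hts _ hmt)

open Classical in
/-- **rDNS**. One step of the density estimate. -/
theorem rDNS (hBAS : rBAS_stmt) (hREF : rREF_stmt) (hDN2 : rDN2_stmt) (hDN3 : rDN3_stmt) (hDN4 : rDN4_stmt) : rDNS_stmt := by
  intro P S hR s H K hs1 hs hV h k hh hk κ
  have hd1 : 0 < P.d1 := hR.1.2.2.2.2.2.2.1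
  have hp : (0 : ℝ) < P.d1 * 2 ^ (s - P.ell) := mul_pos hd1 (by positivity)
  constructor
  · obtain ⟨Q2, hQ2⟩ : ∃ Q2 : Finset ℤ, Q2 = (rTg s).filter (fun m => m / 2 ^ (s - P.ell) = κ ∧ rT2 H 1 s m) := ⟨_, rfl⟩
    obtain ⟨Q3, hQ3⟩ : ∃ Q3 : Finset ℤ, Q3 = (rTg s).filter (fun m => m / 2 ^ (s - P.ell) = κ ∧ rT3 P H K 1 s m) := ⟨_, rfl⟩
    have b2 : (Q2.card : ℝ) ≤ P.d1 / 4 * 2 ^ (s - P.ell) := by
      refine hDN2 P S hR s H K hs1 hs hV κ Q2 (fun m hm => ?_)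
      rw [hQ2] at hm
      exact (Finset.mem_filter.1 hm).2
    have b3 : (Q3.card : ℝ) ≤ P.d1 / 4 * 2 ^ (s - P.ell) := by
      refine hDN3 P S hR s H K hs1 hs hV κ Q3 (fun m hm => ?_)
      rw [hQ3] at hm
      exact (Finset.mem_filter.1 hm).2
    have b1 : (rcw P.ell s κ (rRZ P.T s) : ℝ) ≤ P.d1 * 2 ^ (s - P.ell) := (hR.2.2.2 s hs1 hs).2 κ
    have hsub : (rRZ (Function.update H s h) s).filter (fun m => m / 2 ^ (s - P.ell) = κ) ⊆
        ((rRZ P.T s).filter (fun m => m / 2 ^ (s - P.ell) = κ) ∪ Q2) ∪ Q3 := by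
      intro m hm
      obtain ⟨hm1, hm2⟩ := Finset.mem_filter.1 hm
      have hmT : m ∈ rTg s := by
        unfold rRZ at hm1
        exact (Finset.mem_filter.1 hm1).1
      rcases rDNS_H hR hREF hs1 hs hV hh hm1 with hc | hc | hc
      · exact Finset.mem_union_left _ (Finset.mem_union_left _ (Finset.mem_filter.2 ⟨hc, hm2⟩))
      · refine Finset.mem_union_left _ (Finset.mem_union_right _ ?_)
        rw [hQ2]
        exact Finset.mem_filter.2 ⟨hmT, hm2, hc⟩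
      · refine Finset.mem_union_right _ ?_
        rw [hQ3]
        exact Finset.mem_filter.2 ⟨hmT, hm2, hc⟩
    have hcard : rcw P.ell s κ (rRZ (Function.update H s h) s) ≤ rcw P.ell s κ (rRZ P.T s) + Q2.card + Q3.card := by
      unfold rcw
      exact (Finset.card_le_card hsub).trans ((Finset.card_union_le _ _).trans
        (Nat.add_le_add_right (Finset.card_union_le _ _) _))
    have hcard' : (rcw P.ell s κ (rRZ (Function.update H s h) s) : ℝ) ≤ (rcw P.ell s κ (rRZ P.T s) : ℝ) + (Q2.card : ℝ) + (Q3.card : ℝ) := by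
      exact_mod_cast hcard
    have e1 : P.d1 / 4 * 2 ^ (s - P.ell) = (P.d1 * 2 ^ (s - P.ell)) / 4 := by ring
    have e2 : 2 * P.d1 * 2 ^ (s - P.ell) = 2 * (P.d1 * 2 ^ (s - P.ell)) := by ring
    rw [e1] at b2 b3
    rw [e2]
    linarith
  · obtain ⟨Q4, hQ4⟩ : ∃ Q4 : Finset ℤ, Q4 = (rRZ (Function.update K s k) s).filter (fun m => m / 2 ^ (s - P.ell) = κ) := ⟨_, rfl⟩
    have b4 : (Q4.card : ℝ) ≤ P.d1 / 4 * 2 ^ (s - P.ell) := by
      refine hDN4 P S hR s H K hs1 hs hV κ Q4 (fun n hn => ?_)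
      rw [hQ4] at hn
      obtain ⟨hn1, hn2⟩ := Finset.mem_filter.1 hn
      exact ⟨hn2, rDNS_K hR hBAS hREF hs1 hs hV hk hn1⟩
    have e0 : (rcw P.ell s κ (rRZ (Function.update K s k) s) : ℝ) = (Q4.card : ℝ) := by
      rw [hQ4]
      rfl
    have e1 : P.d1 / 4 * 2 ^ (s - P.ell) = (P.d1 * 2 ^ (s - P.ell)) / 4 := by ring
    rw [e1] at b4
    rw [e0]
    linarith

end Pool.Agent.helper90.DH
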