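import Pool.Agent.helper69.DH.SpecR2

/-!
# Project d2: (MP_5823cb_al), part R: rLOD: the load at every point (helper19)
-/

set_option autoImplicit false

open Filter Topology MeasureTheory
open scoped commutatorElement

namespace Pool.Agent.helper90.DH

open Pool.Agent.helper64.D2

/-- the first hot level of the branch of `z`. -/
theorem rLOD_level {P : RQ} {S : ℕ} (hS : P.s0 ≤ S) (hR : RHY P S) {D : RD} (hK : ROK P D (S + 1)) (z : ℝ) :
    ∃ n, P.s0 ≤ n ∧ n ≤ S + 1 ∧ (∀ s < n, ci s z ∉ D.H s) ∧ (n ≤ S → ci n z ∈ D.H n) := by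
  classical
  have hs0 : P.s0 ≤ P.S1 := hR.1.2.2.2.2.1
  by_cases h : ∃ n, n ≤ S ∧ ci n z ∈ D.H n
  · refine ⟨Nat.find h, ?_, (Nat.find_spec h).1.trans (Nat.le_succ S), fun s hs hc => ?_, fun _ => (Nat.find_spec h).2⟩
    · by_contra hcon
      have h1 : Nat.find h < P.S1 := lt_of_lt_of_le (not_le.1 hcon) hs0
      have h2 := ((hK (Nat.find h) (Nat.lt_succ_of_le (Nat.find_spec h).1)).1 h1).1
      have h3 := (Nat.find_spec h).2
      rw [h2] at h3
      exact absurd h3 (Finset.notMem_empty _)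
    · exact Nat.find_min h hs ⟨(hs.le).trans (Nat.find_spec h).1, hc⟩
  · refine ⟨S + 1, hS.trans (Nat.le_succ S), le_rfl, fun s hs hc => h ⟨s, Nat.lt_succ_iff.1 hs, hc⟩, fun hc => ?_⟩
    omega

/-- the base point is in `[-1,2)` if one of its images is in the range. -/
theorem rLOD_range {P : RQ} {S : ℕ} (hS : P.s0 ≤ S) (hR : RHY P S) (hBRN : rBRN_stmt) {z : ℝ} {X : ℕ → ℝ} (hX : rNP P S z X) {i : ℕ}
    (hi : i < P.q) (hXi : X i ∈ Set.Ico (9 / 32 : ℝ) (23 / 32)) : -1 ≤ z ∧ z < 2 := by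
  have h1 := hX i hi P.s0 le_rfl hS
  have h2 := ((hBRN P S hR).2.2.2.2.2 P.s0 i z le_rfl hS hi).2
  have h3 : (1 : ℝ) / 2 ^ 27 / 2 ^ P.s0 ≤ 1 / 2 := by
    have h4 : (1 : ℝ) ≤ 2 ^ P.s0 := one_le_pow₀ (by norm_num)
    calc (1 : ℝ) / 2 ^ 27 / 2 ^ P.s0 ≤ 1 / 2 ^ 27 := div_le_self (by positivity) h4
      _ ≤ 1 / 2 := by norm_num
  have h5 := abs_le.1 h1
  have h6 := abs_le.1 h2
  obtain ⟨h7, h8⟩ := hXi
  constructor <;> linarith [h5.1, h5.2, h6.1, h6.2]

open Classical in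
/-- **rLOD**. The load at every point. -/
theorem rLOD (hBAS : rBAS_stmt) (hBRN : rBRN_stmt) (hETA : rETA_stmt) (hHOT : rHOT_stmt) (hWTC : rWTC_stmt) (hLD1 : rLD1_stmt) (hLD2 : rLD2_stmt)
    (hLD4 : rLD4_stmt) : rLOD_stmt := by
  intro P S hS hR D hK z X hX F hF hT
  have hq : 1 ≤ P.q := hR.1.1
  have hq' : (0 : ℝ) < P.q := by exact_mod_cast hq
  have h216 : 216 ≤ P.s0 := hR.1.2.2.2.1
  by_cases hall : ∀ i < P.q, X i ∉ Set.Ico (9 / 32 : ℝ) (23 / 32)
  · have h0 : ∑ i ∈ Finset.range P.q, ∑ s ∈ Finset.Ico P.s0 (S + 1), rwt P D s i (ci s (X i)) * (F (s + 1) (X i) - F s (X i)) = 0 := by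
      refine Finset.sum_eq_zero (fun i hi => Finset.sum_eq_zero (fun s hs => ?_))
      rw [Finset.mem_Ico] at hs
      rw [hF.2 s hs.1 (Nat.lt_succ_iff.1 hs.2) (X i) (hall i (Finset.mem_range.1 hi)), sub_self, mul_zero]
    rw [h0, abs_zero]
    norm_num
  · obtain ⟨i₀, hi₀, hXi₀⟩ : ∃ i < P.q, X i ∈ Set.Ico (9 / 32 : ℝ) (23 / 32) := by
      by_contra hcon
      exact hall (fun i hi hc => hcon ⟨i, hi, hc⟩)
    obtain ⟨hz1, hz2⟩ := rLOD_range hS hR hBRN hX hi₀ hXi₀
    obtain ⟨n, hn0, hnS, hnH, hnh⟩ := rLOD_level hS hR hK z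
    -- the functions
    obtain ⟨dF, hdF⟩ : ∃ dF : ℕ → ℕ → ℝ, dF = fun i s => F (s + 1) (X i) - F s (X i) := ⟨_, rfl⟩
    have hdF' : ∀ i s, F (s + 1) (X i) - F s (X i) = dF i s := fun i s => by rw [hdF]
    obtain ⟨et, het⟩ : ∃ et : ℕ → ℕ → ℝ, et = fun i s => reta D.H s (rpt P s i (ci s (X i))) := ⟨_, rfl⟩
    have het' : ∀ i s, reta D.H s (rpt P s i (ci s (X i))) = et i s := fun i s => by rw [het]
    obtain ⟨ee, hee⟩ : ∃ ee : ℕ → ℕ → ℝ, ee = fun i s => (if rcr D s (X i) then 0 else 1 / rNN P D.H s (ci s (X i))) - 1 / (P.q : ℝ) := ⟨_, rfl⟩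
    have hee' : ∀ i s, (if rcr D s (X i) then 0 else 1 / rNN P D.H s (ci s (X i))) - 1 / (P.q : ℝ) = ee i s := fun i s => by rw [hee]
    -- the load of the critical cells
    have L1 := hLD1 P S hR D hK z X hX F hF
    -- the main part
    have hF4 : ∀ s, P.s0 ≤ s → s < n → rF4 P F X s := by
      intro s hs0 hsn
      have hsS : s ≤ S := Nat.lt_succ_iff.1 (lt_of_lt_of_le hsn hnS)
      refine hT s hs0 hsS ?_
      exact ((hHOT P S hR D hK s hsS).1 z hz1 hz2 (fun t ht => hnH t (lt_of_le_of_lt ht hsn))).2.2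
    have L2 := hLD2 P S hR D hK z X hX hz1 hz2 F hF n hn0 hnS hnH hF4
    -- the excess
    have L4 : |∑ i ∈ Finset.range P.q, ∑ s ∈ Finset.Ico P.s0 n, et i s * ee i s * dF i s| ≤ 1 / 1000 := by
      rcases hn0.eq_or_lt with e | hlt
      · rw [← e, Finset.Ico_self]
        simp only [Finset.sum_empty, Finset.sum_const_zero, abs_zero]
        norm_num
      · have h4 := hLD4 P S hR D hK z X hX hz1 hz2 F hF n hlt hnS hnH
        simp only [hdF', het', hee'] at h4
        exact h4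
    simp only [hdF', het'] at L2
    simp only [hdF'] at L1 ⊢
    -- pointwise decomposition
    have hzero : ∀ i < P.q, ∀ s, P.s0 ≤ s → s ≤ S → X i ∉ Set.Ico (9 / 32 : ℝ) (23 / 32) → dF i s = 0 := by
      intro i hi s hs0 hsS hXi
      rw [← hdF', hF.2 s hs0 hsS (X i) hXi, sub_self]
    have hsplit : ∀ i ∈ Finset.range P.q, ∀ s ∈ Finset.Ico P.s0 (S + 1), rwt P D s i (ci s (X i)) * dF i s =
        (if rcr D s (X i) then rwt P D s i (ci s (X i)) * dF i s else 0) + (if s < n then et i s * (1 / (P.q : ℝ)) * dF i s + et i s * ee i s * dF i s else 0) := by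
      intro i hi s hs
      rw [Finset.mem_range] at hi
      rw [Finset.mem_Ico] at hs
      obtain ⟨hs0, hsS'⟩ := hs
      have hsS : s ≤ S := Nat.lt_succ_iff.1 hsS'
      by_cases hXi : X i ∈ Set.Ico (9 / 32 : ℝ) (23 / 32)
      · have h5 : 5 ≤ s := by omega
        by_cases hcr : rcr D s (X i)
        · rw [if_pos hcr]
          have e1 : ee i s = -(1 / (P.q : ℝ)) := by
            rw [← hee', if_pos hcr, zero_sub]
          rw [e1]
          split_ifs <;> ring
        · rw [if_neg hcr, zero_add]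
          have hw := (hWTC P D (X i) s i h5).1 hcr hXi
          rw [het'] at hw
          by_cases hsn : s < n
          · rw [if_pos hsn]
            have e1 : ee i s = 1 / rNN P D.H s (ci s (X i)) - 1 / (P.q : ℝ) := by
              rw [← hee', if_neg hcr]
            rw [e1, hw]
            ring
          · rw [if_neg hsn]
            have hns : n ≤ s := not_lt.1 hsn
            have hnS' : n ≤ S := hns.trans hsS
            have hdist : |rpt P s i (ci s (X i)) - z| ≤ 5 / 4 / 2 ^ s :=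
              ((hBRN P S hR).2.2.1 s i z (X i) hs0 hsS hi (hX i hi s hs0 hsS)).2.1
            have h0 : et i s = 0 := by
              rw [← het']
              exact (hETA D.H s z).2.2.1 ⟨n, hns, ci n z, hnh hnS', (hBAS.1 n z).2.2⟩ _ hdist
            rw [hw, h0, zero_div, zero_mul]
      · rw [hzero i hi s hs0 hsS hXi]
        simp only [mul_zero, add_zero, ite_self]
    have hsum : ∑ i ∈ Finset.range P.q, ∑ s ∈ Finset.Ico P.s0 (S + 1), rwt P D s i (ci s (X i)) * dF i s =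
        (∑ i ∈ Finset.range P.q, ∑ s ∈ Finset.Ico P.s0 (S + 1), (if rcr D s (X i) then rwt P D s i (ci s (X i)) * dF i s else 0)) +
        ((1 / (P.q : ℝ)) * (∑ s ∈ Finset.Ico P.s0 n, ∑ i ∈ Finset.range P.q, et i s * dF i s) +
          ∑ i ∈ Finset.range P.q, ∑ s ∈ Finset.Ico P.s0 n, et i s * ee i s * dF i s) := by
      have hIco : (Finset.Ico P.s0 (S + 1)).filter (fun s => s < n) = Finset.Ico P.s0 n := by
        ext s
        simp only [Finset.mem_filter, Finset.mem_Ico]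
        constructor
        · rintro ⟨⟨h1, -⟩, h3⟩
          exact ⟨h1, h3⟩
        · rintro ⟨h1, h2⟩
          exact ⟨⟨h1, lt_of_lt_of_le h2 hnS⟩, h2⟩
      have e1 : ∀ i ∈ Finset.range P.q, ∑ s ∈ Finset.Ico P.s0 (S + 1), rwt P D s i (ci s (X i)) * dF i s =
          (∑ s ∈ Finset.Ico P.s0 (S + 1), (if rcr D s (X i) then rwt P D s i (ci s (X i)) * dF i s else 0)) +
          ((∑ s ∈ Finset.Ico P.s0 n, (1 / (P.q : ℝ)) * (et i s * dF i s)) + ∑ s ∈ Finset.Ico P.s0 n, et i s * ee i s * dF i s) := by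
        intro i hi
        rw [Finset.sum_congr rfl (hsplit i hi), Finset.sum_add_distrib]
        congr 1
        rw [← Finset.sum_filter, hIco, Finset.sum_add_distrib]
        congr 1
        exact Finset.sum_congr rfl (fun s _ => by ring)
      rw [Finset.sum_congr rfl e1, Finset.sum_add_distrib, Finset.sum_add_distrib]
      congr 2
      rw [Finset.sum_comm, Finset.mul_sum]
      exact Finset.sum_congr rfl (fun s _ => by rw [Finset.mul_sum])
    rw [hsum]
    have b2 : |(1 / (P.q : ℝ)) * (∑ s ∈ Finset.Ico P.s0 n, ∑ i ∈ Finset.range P.q, et i s * dF i s)| ≤ 4 / 1000 := by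
      rw [abs_mul, abs_of_pos (by positivity : (0 : ℝ) < 1 / (P.q : ℝ))]
      calc 1 / (P.q : ℝ) * |∑ s ∈ Finset.Ico P.s0 n, ∑ i ∈ Finset.range P.q, et i s * dF i s| ≤ 1 / (P.q : ℝ) * (4 / 1000 * P.q) :=
            mul_le_mul_of_nonneg_left L2 (by positivity)
        _ = 4 / 1000 := by field_simp
    have t1 := abs_add_le (∑ i ∈ Finset.range P.q, ∑ s ∈ Finset.Ico P.s0 (S + 1), (if rcr D s (X i) then rwt P D s i (ci s (X i)) * dF i s else 0))
        ((1 / (P.q : ℝ)) * (∑ s ∈ Finset.Ico P.s0 n, ∑ i ∈ Finset.range P.q, et i s * dF i s) +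
          ∑ i ∈ Finset.range P.q, ∑ s ∈ Finset.Ico P.s0 n, et i s * ee i s * dF i s)
    have t2 := abs_add_le ((1 / (P.q : ℝ)) * (∑ s ∈ Finset.Ico P.s0 n, ∑ i ∈ Finset.range P.q, et i s * dF i s))
        (∑ i ∈ Finset.range P.q, ∑ s ∈ Finset.Ico P.s0 n, et i s * ee i s * dF i s)
    linarith

end Pool.Agent.helper90.DH
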